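import Pool.Agent.Lib.MP_143a03_nt.Chi

/-! The factors `x + μ ^ a * y` of `x ^ p + y ^ p`. -/

namespace Pool.Agent.Lib.MP_143a03_nt

open Finset

/-- `(x ^ p + y ^ p) / (x + y)`. -/
def cof (p : ℕ) (x y : ℤ) : ℤ := ∑ i ∈ range p, x ^ i * (-y) ^ (p - 1 - i)

/-- The Stickelberger power of `x + w * y`. -/
noncomputable def AA {S : Type*} [CommRing S] (p : ℕ) [Fact p.Prime] (w x y : S) : S :=
  ∏ a : ZMod p, (x + w ^ a.val * y) ^ (-a⁻¹).val

variable {p : ℕ}

lemma cof_mul (hodd : Odd p) (x y : ℤ) : cof p x y * (x + y) = x ^ p + y ^ p := by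
  have := geom_sum₂_mul x (-y) p
  rw [hodd.neg_pow, sub_neg_eq_add, sub_neg_eq_add] at this
  exact this

lemma exists_root {l : ℕ} [Fact l.Prime] (hp : p.Prime) (hodd : Odd p) {x y : ℤ}
    (hxy : IsCoprime x y) (hpxy : ¬ (p : ℤ) ∣ x + y) (hl : (l : ℤ) ∣ cof p x y) :
    (y : ZMod l) ≠ 0 ∧ ∃ r : ZMod l, IsPrimitiveRoot r p ∧ (x : ZMod l) + r * y = 0 := by
  have hl' : l.Prime := Fact.out
  have hlp : Prime (l : ℤ) := Nat.prime_iff_prime_int.1 hl'
  have hnot : ¬ ((l : ℤ) ∣ x ∧ (l : ℤ) ∣ y) := fun h =>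
    hlp.not_isUnit (hxy.isUnit_of_dvd' h.1 h.2)
  have h1 : (l : ℤ) ∣ x ^ p + y ^ p := cof_mul hodd x y ▸ hl.mul_right _
  have hy : (y : ZMod l) ≠ 0 := by
    rw [Ne, ZMod.intCast_zmod_eq_zero_iff_dvd]
    intro hy
    exact hnot ⟨hlp.dvd_of_dvd_pow ((dvd_add_left (dvd_pow hy hp.ne_zero)).1 h1), hy⟩
  refine ⟨hy, -(x : ZMod l) / y, ?_, by field_simp; ring⟩
  have := Fact.mk hp
  rw [IsPrimitiveRoot.iff_orderOf]
  refine orderOf_eq_prime ?_ ?_
  · have h2 : (x : ZMod l) ^ p + (y : ZMod l) ^ p = 0 := by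
      have := (ZMod.intCast_zmod_eq_zero_iff_dvd _ l).2 h1
      simpa using this
    rw [div_pow, hodd.neg_pow, div_eq_one_iff_eq (pow_ne_zero _ hy)]
    linear_combination -h2
  · intro h
    rw [div_eq_one_iff_eq hy] at h
    have h2 : (l : ℤ) ∣ x - -y := by
      rw [← ZMod.intCast_zmod_eq_zero_iff_dvd]
      push_cast
      linear_combination -h
    have h3 := (dvd_geom_sum₂_iff_of_dvd_sub' (n := p) h2).1 hl
    rw [sub_neg_eq_add] at h2
    rcases hlp.dvd_or_dvd h3 with h4 | h4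
    · have : l = p := (Nat.prime_dvd_prime_iff_eq hl' hp).1 (Int.natCast_dvd_natCast.1 h4)
      exact hpxy (this ▸ h2)
    · have h5 := hlp.dvd_of_dvd_pow h4
      exact hnot ⟨h5, (dvd_add_right h5).1 h2⟩

variable [Fact p.Prime]

lemma prod_factor {R : Type*} [CommRing R] [IsDomain R] (hodd : Odd p) {μ : R}
    (hμ : IsPrimitiveRoot μ p) (x y : R) :
    ∏ a : ZMod p, (x + μ ^ a.val * y) = x ^ p + y ^ p := by
  have hp : p.Prime := Fact.out
  have h1 := congrArg (Polynomial.eval x)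
    (X_pow_sub_C_eq_prod hμ (α := -y) (a := -y ^ p) hp.pos (hodd.neg_pow y))
  simp only [Polynomial.eval_sub, Polynomial.eval_pow, Polynomial.eval_X, Polynomial.eval_C,
    Polynomial.eval_prod, mul_neg, sub_neg_eq_add] at h1
  rw [h1]
  obtain ⟨n, rfl⟩ : ∃ n, p = n + 1 := ⟨p - 1, by have := hp.pos; omega⟩
  exact Fin.prod_univ_eq_prod_range (fun i => x + μ ^ i * y) (n + 1)

lemma prod_erase {R : Type*} [CommRing R] [IsDomain R] [CharZero R] (hodd : Odd p) {μ : R}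
    (hμ : IsPrimitiveRoot μ p) {x y : ℤ} (hxy : x + y ≠ 0) :
    ∏ a ∈ univ.erase (0 : ZMod p), ((x : R) + μ ^ a.val * y) = (cof p x y : R) := by
  have h1 := prod_factor hodd hμ (x : R) y
  rw [← mul_prod_erase _ _ (mem_univ (0 : ZMod p))] at h1
  simp only [ZMod.val_zero, pow_zero, one_mul] at h1
  have h2 : ((cof p x y * (x + y) : ℤ) : R) = ((x ^ p + y ^ p : ℤ) : R) := by rw [cof_mul hodd]
  push_cast at h2
  have h3 : (x : R) + y ≠ 0 := by exact_mod_cast hxy
  exact mul_left_cancel₀ h3 (by rw [h1, ← h2, mul_comm])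

lemma coprime_factor {R : Type*} [CommRing R] [IsDomain R] (hodd : Odd p) {μ : R}
    (hμ : IsPrimitiveRoot μ p) {x y : ℤ} (hxy : IsCoprime x y) (hpxy : ¬ (p : ℤ) ∣ x + y)
    {a b : ZMod p} (hab : a ≠ b) :
    IsCoprime ((x : R) + μ ^ a.val * y) ((x : R) + μ ^ b.val * y) := by
  have hp : p.Prime := Fact.out
  rw [← Ideal.isCoprime_span_singleton_iff, Ideal.isCoprime_iff_sup_eq, Ideal.eq_top_iff_one,
    ← Ideal.Quotient.eq_zero_iff_mem]
  set I := Ideal.span {(x : R) + μ ^ a.val * y} ⊔ Ideal.span {(x : R) + μ ^ b.val * y}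
  let π := Ideal.Quotient.mk I
  have e1 : (x : R ⧸ I) + π μ ^ a.val * y = 0 := by
    have := Ideal.Quotient.eq_zero_iff_mem.2
      (Ideal.mem_sup_left (Ideal.mem_span_singleton_self _) : (x : R) + μ ^ a.val * y ∈ I)
    simpa using this
  have e2 : (x : R ⧸ I) + π μ ^ b.val * y = 0 := by
    have := Ideal.Quotient.eq_zero_iff_mem.2
      (Ideal.mem_sup_right (Ideal.mem_span_singleton_self _) : (x : R) + μ ^ b.val * y ∈ I)
    simpa using this
  obtain ⟨u, v, huv⟩ := hxy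
  have e3 : (u : R ⧸ I) * x + v * y = 1 := by exact_mod_cast congrArg (Int.cast : ℤ → R ⧸ I) huv
  have e4 : π μ ^ a.val = π μ ^ b.val := by
    linear_combination (-(π μ ^ a.val - π μ ^ b.val)) * e3 + (v : R ⧸ I) * (e1 - e2) +
      (u : R ⧸ I) * (π μ ^ a.val * e2 - π μ ^ b.val * e1)
  have e5 : μ ^ (a - b).val * μ ^ b.val = μ ^ a.val := by
    rw [← pow_add, pow_eq_pow_mod _ hμ.pow_eq_one, ← ZMod.val_add, sub_add_cancel]
  have e6 : μ ^ (a - b).val - 1 ∣ (p : R) := by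
    refine sub_one_dvd_natCast_of_pow_eq_one ?_ ?_
    · rw [← pow_mul, mul_comm, pow_mul, hμ.pow_eq_one, one_pow]
    · exact hμ.pow_ne_one_of_pos_of_lt (ZMod.val_pos.2 (sub_ne_zero.2 hab)).ne' (ZMod.val_lt _)
  have hu : IsUnit (π μ ^ b.val) := ((hμ.isUnit hp.ne_zero).map π).pow _
  have e7 : π μ ^ (a - b).val - 1 = 0 := by
    have := congrArg π e5
    simp only [map_mul, map_pow] at this
    rw [e4] at this
    exact hu.mul_left_eq_zero.1 (by linear_combination this)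
  have e8 : (p : R ⧸ I) = 0 := by
    obtain ⟨c, hc⟩ := e6
    have := congrArg π hc
    simp only [map_mul, map_natCast, map_sub, map_pow, map_one] at this
    rw [this, e7, zero_mul]
  have e9 : (x : R ⧸ I) ^ p + (y : R ⧸ I) ^ p = 0 := by
    have h1 : (x : R ⧸ I) = -(π μ ^ a.val * y) := by linear_combination e1
    have h2 : (π μ ^ a.val) ^ p = 1 := by
      rw [← pow_mul, mul_comm, pow_mul, ← map_pow, hμ.pow_eq_one, map_one, one_pow]
    rw [h1, hodd.neg_pow, mul_pow, h2]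
    ring
  have e10 : ((x : R ⧸ I) + y) ^ p = 0 := by
    obtain ⟨r, hr⟩ := exists_add_pow_prime_eq hp (x : R ⧸ I) y
    rw [hr, e9, e8]
    ring
  obtain ⟨s, t, hst⟩ : IsCoprime (p : ℤ) ((x + y) ^ p) :=
    (((Nat.prime_iff_prime_int.1 hp).coprime_iff_not_dvd).2 hpxy).pow_right
  have e11 := congrArg (Int.cast : ℤ → R ⧸ I) hst
  push_cast at e11
  rw [e8, e10] at e11
  rw [map_one, ← e11]
  ring

lemma AA_map {R S : Type*} [CommRing R] [CommRing S] (f : R →+* S) (w x y : R) :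
    f (AA p w x y) = AA p (f w) (f x) (f y) := by
  simp [AA]

lemma norm_AA (hodd : Odd p) {w : ℂ} (hw : IsPrimitiveRoot w p) {x y : ℤ} (hxy : x + y ≠ 0) :
    ‖AA p w x y‖ ^ 2 = ((cof p x y).natAbs : ℝ) ^ p := by
  have hp : p.Prime := Fact.out
  have hn : ‖w‖ = 1 := hw.norm'_eq_one hp.ne_zero
  have h1 : ∀ a : ZMod p, ‖(x : ℂ) + w ^ (-a).val * y‖ = ‖(x : ℂ) + w ^ a.val * y‖ := by
    intro a
    have e1 : w ^ (-a).val * w ^ a.val = 1 := by
      rw [← pow_add, pow_eq_pow_mod _ hw.pow_eq_one, ← ZMod.val_add, neg_add_cancel,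
        ZMod.val_zero, pow_zero]
    have e2 : (starRingEnd ℂ) (w ^ a.val) = w ^ (-a).val := by
      rw [← Complex.inv_eq_conj (by rw [norm_pow, hn, one_pow])]
      exact (eq_inv_of_mul_eq_one_left e1).symm
    rw [← Complex.norm_conj ((x : ℂ) + w ^ a.val * y), map_add, map_mul, e2]
    simp
  have h2 : ‖AA p w x y‖ = ∏ a : ZMod p, ‖(x : ℂ) + w ^ a.val * y‖ ^ (-a⁻¹).val := by
    simp [AA]
  have h3 : ‖AA p w x y‖ = ∏ a : ZMod p, ‖(x : ℂ) + w ^ a.val * y‖ ^ (a⁻¹).val := by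
    rw [h2, ← Equiv.prod_comp (Equiv.neg (ZMod p))]
    refine prod_congr rfl fun a _ => ?_
    simp only [Equiv.neg_apply, h1, inv_neg, neg_neg]
  have h4 : ((cof p x y).natAbs : ℝ) = ∏ a ∈ univ.erase (0 : ZMod p), ‖(x : ℂ) + w ^ a.val * y‖ := by
    rw [← norm_prod, prod_erase hodd hw hxy]
    simp
  rw [sq]
  nth_rewrite 1 [h2]
  rw [h3, ← prod_mul_distrib, h4, ← prod_pow, ← mul_prod_erase _ _ (mem_univ (0 : ZMod p))]
  simp only [inv_zero, neg_zero, ZMod.val_zero, pow_zero, mul_one, one_mul]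
  refine prod_congr rfl fun a ha => ?_
  rw [← pow_add, ZMod.neg_val, if_neg (inv_ne_zero (ne_of_mem_erase ha)),
    Nat.sub_add_cancel (ZMod.val_lt _).le]

/-- The total exponent. -/
def EE (p : ℕ) [Fact p.Prime] : ℕ := ∑ a : ZMod p, (-a⁻¹).val

lemma dvd_EE (hp2 : 2 < p) : p ∣ EE p := by
  rw [← ZMod.natCast_eq_zero_iff, EE]
  simp only [Nat.cast_sum, ZMod.natCast_val, ZMod.cast_id', id_eq, sum_neg_distrib, neg_eq_zero]
  rw [← Equiv.sum_comp (Equiv.inv (ZMod p))]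
  simp only [Equiv.inv_apply, inv_inv]
  have := FiniteField.sum_pow_lt_card_sub_one (ZMod p) 1 (by rw [ZMod.card]; omega)
  simpa using this

lemma AA_smul {S : Type*} [CommRing S] (w d x y : S) :
    AA p w (d * x) (d * y) = d ^ EE p * AA p w x y := by
  rw [AA, AA, EE, ← prod_pow_eq_pow_sum, ← prod_mul_distrib]
  refine prod_congr rfl fun a _ => ?_
  rw [← mul_pow]
  congr 1
  ring

lemma AA_congr {S : Type*} [CommRing S] {w : S} (hw : (w - 1) ^ 2 = 0) (hp0 : (p : S) * (w - 1) = 0)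
    {x y : ℤ} {c : ℕ} (hc : (c : ZMod p) * (x + y) = y) :
    AA p w x y = ((x : S) + y) ^ EE p * (1 + c * (w - 1)) := by
  have hpow : ∀ n : ℕ, w ^ n = 1 + n * (w - 1) := by
    intro n
    induction n with
    | zero => simp
    | succ n ih => rw [pow_succ, ih]; push_cast; linear_combination (n : S) * hw
  have hmod : ∀ {a b : ℤ}, (a : ZMod p) = b → (a : S) * (w - 1) = b * (w - 1) := by
    intro a b h
    obtain ⟨k, hk⟩ := (ZMod.intCast_eq_intCast_iff_dvd_sub _ _ _).1 h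
    have : (b : S) = a + p * k := by exact_mod_cast congrArg (Int.cast : ℤ → S) (by linarith : b = a + p * k)
    rw [this]
    linear_combination (-(k : S)) * hp0
  have h0 : ((c : S) * (x + y)) * (w - 1) = y * (w - 1) := by
    have := hmod (a := c * (x + y)) (b := y) (by push_cast; exact hc)
    push_cast at this
    exact this
  have h1 : ∀ a : ZMod p, (x : S) + w ^ a.val * y = (x + y) * w ^ (c * a.val) := by
    intro a
    rw [hpow, hpow]
    push_cast
    linear_combination (-(a.val : S)) * h0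
  have h2 : AA p w x y = ((x : S) + y) ^ EE p * w ^ (∑ a : ZMod p, c * a.val * (-a⁻¹).val) := by
    rw [AA, EE, ← prod_pow_eq_pow_sum, ← prod_pow_eq_pow_sum, ← prod_mul_distrib]
    refine prod_congr rfl fun a _ => ?_
    rw [h1, mul_pow, ← pow_mul]
  rw [h2, hpow]
  congr 2
  have := hmod (a := ((∑ a : ZMod p, c * a.val * (-a⁻¹).val : ℕ) : ℤ)) (b := (c : ℤ)) (by
    rw [Int.cast_natCast, Int.cast_natCast]
    simp only [Nat.cast_sum, Nat.cast_mul, ZMod.natCast_val, ZMod.cast_id', id_eq]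
    rw [← add_sum_erase _ _ (mem_univ (0 : ZMod p)), sum_congr rfl (g := fun _ => -(c : ZMod p))]
    · rw [sum_const, card_erase_of_mem (mem_univ _), card_univ, ZMod.card, nsmul_eq_mul,
        Nat.cast_sub (Fact.out : p.Prime).one_le]
      simp
    · intro a ha
      have := ne_of_mem_erase ha
      field_simp)
  rwa [Int.cast_natCast, Int.cast_natCast] at this

end Pool.Agent.Lib.MP_143a03_nt
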