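import Mathlib

/-! Characters of order `p` on a prime field, their Jacobi sums and the `p`-th power of the
Gauss sum. -/

namespace Pool.Agent.Lib.MP_143a03_nt

open Finset

/-- `χ` sends `u` to `μ ^ k` when `u ^ m = r ^ k`. -/
def Match {R : Type*} [CommRing R] {l : ℕ} [Fact l.Prime] (μ : R) (r : ZMod l) (m : ℕ)
    (χ : MulChar (ZMod l) R) : Prop :=
  ∀ u : ZMod l, u ≠ 0 → ∃ k : ℕ, χ u = μ ^ k ∧ u ^ m = r ^ k

/-- The `p`-th power of the Gauss sum, written with Jacobi sums. -/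
noncomputable def Phi {R : Type*} [CommRing R] {l : ℕ} [Fact l.Prime] (p : ℕ)
    (χ : MulChar (ZMod l) R) : R :=
  χ (-1) * (l : R) * ∏ i ∈ Ico 1 (p - 1), jacobiSum χ (χ ^ i)

variable {R : Type*} [CommRing R] {l p m : ℕ} [Fact l.Prime]

lemma pow_mp (hm : l - 1 = m * p) {u : ZMod l} (hu : u ≠ 0) : u ^ (m * p) = 1 := by
  rw [← hm]; exact ZMod.pow_card_sub_one_eq_one hu

lemma exists_match [IsDomain R] (hp : 0 < p) {μ : R} (hμ : IsPrimitiveRoot μ p) {r : ZMod l}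
    (hr : IsPrimitiveRoot r p) (hm : l - 1 = m * p) :
    ∃ χ : MulChar (ZMod l) R, Match μ r m χ := by
  classical
  have : NeZero p := ⟨hp.ne'⟩
  obtain ⟨g, hg⟩ := IsCyclic.exists_generator (α := (ZMod l)ˣ)
  have h1 : ((g : ZMod l) ^ m) ^ p = 1 := by
    rw [← pow_mul]; exact pow_mp hm g.ne_zero
  obtain ⟨k0, -, hk0⟩ := hr.eq_pow_of_pow_eq_one h1
  have hu : IsUnit μ := hμ.isUnit hp.ne'
  have hmem : hu.unit ^ k0 ∈ rootsOfUnity (Fintype.card (ZMod l)ˣ) R := by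
    rw [mem_rootsOfUnity, ZMod.card_units, hm, ← pow_mul]
    ext
    simp only [Units.val_pow_eq_pow_val, IsUnit.unit_spec, Units.val_one]
    rw [show k0 * (m * p) = p * (k0 * m) by ring, pow_mul, hμ.pow_eq_one, one_pow]
  refine ⟨MulChar.ofRootOfUnity hmem hg, fun u hu0 => ?_⟩
  obtain ⟨a, ha⟩ : ∃ a : ℕ, g ^ a = Units.mk0 u hu0 :=
    (mem_powers_iff_mem_zpowers.2 (hg _))
  have hua : u = (g : ZMod l) ^ a := by
    have := congrArg Units.val ha
    simpa using this.symm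
  refine ⟨k0 * a, ?_, ?_⟩
  · rw [hua, map_pow, MulChar.ofRootOfUnity_spec]
    simp [pow_mul]
  · rw [hua, ← pow_mul, mul_comm a m, pow_mul, ← hk0, ← pow_mul]

lemma Match.map {R' : Type*} [CommRing R'] {μ : R} {r : ZMod l} {χ : MulChar (ZMod l) R}
    (h : Match μ r m χ) (f : R →+* R') : Match (f μ) r m (χ.ringHomComp f) := by
  intro u hu
  obtain ⟨k, h1, h2⟩ := h u hu
  exact ⟨k, by simp [h1], h2⟩

lemma Phi_map {R' : Type*} [CommRing R'] (χ : MulChar (ZMod l) R) (f : R →+* R') :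
    f (Phi p χ) = Phi p (χ.ringHomComp f) := by
  simp only [Phi, map_mul, map_natCast, map_prod, MulChar.ringHomComp_apply]
  congr 1
  refine prod_congr rfl fun i _ => ?_
  rw [← jacobiSum_ringHomComp, MulChar.ringHomComp_pow]

lemma Match.pow_eq_one {μ : R} (hμ : μ ^ p = 1) {r : ZMod l} {χ : MulChar (ZMod l) R}
    (h : Match μ r m χ) : χ ^ p = 1 := by
  ext u
  obtain ⟨k, h1, -⟩ := h u u.ne_zero
  rw [MulChar.pow_apply_coe, h1, ← pow_mul, mul_comm, pow_mul, hμ, one_pow, MulChar.one_apply_coe]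

lemma Match.eq_one {μ : R} (hμ : μ ^ p = 1) {r : ZMod l} (hr : IsPrimitiveRoot r p)
    {χ : MulChar (ZMod l) R} (h : Match μ r m χ) {u : ZMod l} (hu : u ≠ 0) (h1 : u ^ m = 1) :
    χ u = 1 := by
  obtain ⟨k, h2, h3⟩ := h u hu
  obtain ⟨c, rfl⟩ := (hr.pow_eq_one_iff_dvd k).1 (h3 ▸ h1)
  rw [h2, pow_mul, hμ, one_pow]

lemma Match.orderOf_eq (hp : p.Prime) {μ : R} (hμ : IsPrimitiveRoot μ p) {r : ZMod l}
    (hr : IsPrimitiveRoot r p) (hm : l - 1 = m * p) {χ : MulChar (ZMod l) R}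
    (h : Match μ r m χ) : orderOf χ = p := by
  have := Fact.mk hp
  refine orderOf_eq_prime (h.pow_eq_one hμ.pow_eq_one) fun h1 => ?_
  obtain ⟨g, hg⟩ := IsCyclic.exists_generator (α := (ZMod l)ˣ)
  obtain ⟨k, h2, h3⟩ := h g g.ne_zero
  rw [h1, MulChar.one_apply_coe] at h2
  obtain ⟨c, rfl⟩ := (hμ.pow_eq_one_iff_dvd k).1 h2.symm
  rw [pow_mul, hr.pow_eq_one, one_pow] at h3
  have h4 : g ^ m = 1 := by ext; simpa using h3
  have h5 := orderOf_dvd_of_pow_eq_one h4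
  rw [orderOf_eq_card_of_forall_mem_zpowers hg, Nat.card_eq_fintype_card, ZMod.card_units,
    hm] at h5
  have hl : 2 ≤ l := (Fact.out : l.Prime).two_le
  have hm0 : 0 < m := by
    rcases Nat.eq_zero_or_pos m with h0 | h0
    · subst h0; omega
    · exact h0
  have := Nat.le_of_dvd hm0 h5
  have := hp.two_le
  nlinarith

lemma Phi_eq_gauss [IsDomain R] (hp : p.Prime) {χ : MulChar (ZMod l) R} (ho : orderOf χ = p)
    {ψ : AddChar (ZMod l) R} (hψ : ψ.IsPrimitive) : Phi p χ = gaussSum χ ψ ^ p := by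
  have := gaussSum_pow_eq_prod_jacobiSum (χ := χ) (ψ := ψ) (ho ▸ hp.two_le) hψ
  rw [ho, ZMod.card] at this
  rw [this, Phi]

/-- Absolute value of `Phi`. -/
lemma norm_Phi (hp : p.Prime) {χ : MulChar (ZMod l) ℂ} (ho : orderOf χ = p) :
    ‖Phi p χ‖ ^ 2 = (l : ℝ) ^ p := by
  have : NeZero l := ⟨(Fact.out : l.Prime).ne_zero⟩
  have hψ := ZMod.isPrimitive_stdAddChar l
  have h1 : χ ≠ 1 := by
    rintro rfl
    rw [orderOf_one] at ho
    exact hp.one_lt.ne ho
  have h2 := gaussSum_mul_gaussSum_eq_card h1 hψ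
  rw [← star_gaussSum_eq, ZMod.card] at h2
  have h3 : ‖gaussSum χ ZMod.stdAddChar‖ ^ 2 = l := by
    have := congrArg (fun z : ℂ => ‖z‖) h2
    simp only [norm_mul, norm_star, Complex.norm_natCast] at this
    rw [sq, this]
  rw [Phi_eq_gauss hp ho hψ, norm_pow, ← pow_mul, mul_comm, pow_mul, h3]

/-- `Phi` in characteristic `q`. -/
lemma Phi_pow_char {F : Type*} [Field F] [IsAlgClosed F] {q e : ℕ} [Fact q.Prime] [CharP F q]
    (hp : p.Prime) (hlq : l ≠ q) (he : q ^ (p - 1) = e * p + 1)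
    {χ : MulChar (ZMod l) F} (ho : orderOf χ = p) (hq : χ (q : ZMod l) = 1) :
    Phi p χ ^ e = 1 := by
  have hl : l.Prime := Fact.out
  have hq' : q.Prime := Fact.out
  have : NeZero l := ⟨hl.ne_zero⟩
  have hlF : (l : F) ≠ 0 := by
    rw [Ne, CharP.cast_eq_zero_iff F q]
    intro h
    exact hlq ((Nat.prime_dvd_prime_iff_eq hq' hl).1 h).symm
  have : NeZero (l : F) := ⟨hlF⟩
  obtain ⟨w, hw⟩ := HasEnoughRootsOfUnity.exists_primitiveRoot F l
  have hψ := AddChar.zmodChar_primitive_of_primitive_root l hw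
  set ψ := AddChar.zmodChar l ((IsPrimitiveRoot.iff_def w l).mp hw).left
  have h1 : χ ≠ 1 := by
    rintro rfl
    rw [orderOf_one] at ho
    exact hp.one_lt.ne ho
  have hg : gaussSum χ ψ ≠ 0 := gaussSum_ne_zero_of_nontrivial (by rwa [ZMod.card]) h1 hψ
  have hit : ∀ n : ℕ, gaussSum χ ψ ^ q ^ n = gaussSum (χ ^ q ^ n) (ψ ^ q ^ n) := by
    intro n
    induction n with
    | zero => simp
    | succ n ih => rw [pow_succ, pow_mul, ih, gaussSum_frob q, ← pow_mul, ← pow_mul]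
  have hqu : IsUnit ((q : ZMod l) ^ (p - 1)) := by
    refine IsUnit.pow _ (IsUnit.mk0 _ ?_)
    rw [Ne, ZMod.natCast_eq_zero_iff]
    intro h
    exact hlq ((Nat.prime_dvd_prime_iff_eq hl hq').1 h)
  have h2 := hit (p - 1)
  have h3 : χ ^ q ^ (p - 1) = χ := by
    rw [he, pow_succ, mul_comm e p, pow_mul, ← ho, pow_orderOf_eq_one, one_pow, one_mul]
  have h4 : ψ ^ q ^ (p - 1) = ψ.mulShift hqu.unit := by
    rw [AddChar.pow_mulShift]
    simp
  have h5 := gaussSum_mulShift χ ψ hqu.unit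
  rw [IsUnit.unit_spec, map_pow, hq, one_pow, one_mul] at h5
  rw [h3, h4, IsUnit.unit_spec, h5, he, pow_succ] at h2
  rw [Phi_eq_gauss hp ho hψ, ← pow_mul, mul_comm]
  exact mul_right_cancel₀ hg (by rw [h2, one_mul])

/-- `Phi` is congruent to `-l` modulo `(μ - 1) ^ 2`. -/
lemma Phi_congr [IsDomain R] (hp : p.Prime) (hp2 : 2 < p) {μ : R} (hμ : IsPrimitiveRoot μ p)
    {r : ZMod l} (hm : l - 1 = m * p) {χ : MulChar (ZMod l) R} (h : Match μ r m χ)
    {S : Type*} [CommRing S] (π : R →+* S) (hπ : (π μ - 1) ^ 2 = 0) :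
    π (Phi p χ) = -(l : S) := by
  have hχ := h.pow_eq_one hμ.pow_eq_one
  have hodd : Odd p := hp.odd_of_ne_two (by omega)
  have hneg : χ (-1) = 1 := by
    have a1 : χ (-1) ^ 2 = 1 := by rw [← map_pow]; simp
    have a2 : χ (-1) ^ p = 1 := by
      have := MulChar.pow_apply_coe χ p (-1)
      rw [hχ, MulChar.one_apply_coe] at this
      simpa using this.symm
    obtain ⟨k, rfl⟩ := hodd
    rwa [pow_succ, pow_mul, a1, one_pow, one_mul] at a2
  have hJ : ∀ i, π (jacobiSum χ (χ ^ i)) = -1 := by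
    intro i
    obtain ⟨z, -, hz⟩ := exists_jacobiSum_eq_neg_one_add hp2 hχ (ψ := χ ^ i)
      (by rw [← pow_mul, mul_comm, pow_mul, hχ, one_pow])
      (by rw [ZMod.card, hm]; exact Dvd.intro_left _ rfl) hμ
    rw [hz]
    simp [hπ]
  have ho : Odd (p - 1 - 1) := by
    obtain ⟨k, rfl⟩ := hodd
    exact ⟨k - 1, by omega⟩
  simp only [Phi, hneg, map_mul, map_one, map_natCast, map_prod, hJ, prod_const, Nat.card_Ico,
    ho.neg_one_pow]
  ring

lemma sum_pow_mul_eq_zero {A B : ℕ} (h : A + B < l - 1) :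
    ∑ u : ZMod l, u ^ A * (1 - u) ^ B = 0 := by
  have h1 : ∀ u : ZMod l, u ^ A * (1 - u) ^ B =
      ∑ c ∈ range (B + 1), ((-1) ^ c * (B.choose c : ZMod l)) * u ^ (A + c) := by
    intro u
    rw [show 1 - u = -u + 1 by ring, add_pow, mul_sum]
    refine sum_congr rfl fun c _ => ?_
    rw [neg_pow]
    ring
  simp only [h1]
  rw [sum_comm]
  refine sum_eq_zero fun c hc => ?_
  rw [← mul_sum, FiniteField.sum_pow_lt_card_sub_one, mul_zero]
  rw [ZMod.card]
  have := mem_range.1 hc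
  omega

/-- Vanishing of a Jacobi sum modulo a prime above `l`. -/
lemma map_jacobi_eq_zero {μ : R} {r : ZMod l} (hm : l - 1 = m * p)
    {χ : MulChar (ZMod l) R} (h : Match μ r m χ) {S : Type*} [CommRing S] (π : R →+* S)
    (ι : ZMod l →+* S) {t i j : ℕ} (hπ : π μ = ι r ^ t) (ht : 0 < t) (hi : 0 < i) (hj : 0 < j)
    (hij : t * i ≡ j [MOD p]) (hlt : t + j < p) : π (jacobiSum χ (χ ^ i)) = 0 := by
  have hl : 2 ≤ l := (Fact.out : l.Prime).two_le
  have hm0 : 0 < m := by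
    rcases Nat.eq_zero_or_pos m with h0 | h0
    · subst h0; omega
    · exact h0
  have h1 : ∀ u : ZMod l, π (χ u) = ι (u ^ (m * t)) := by
    intro u
    by_cases hu : u = 0
    · subst hu
      rw [MulChar.map_zero, zero_pow (by positivity), map_zero, map_zero]
    · obtain ⟨k, h2, h3⟩ := h u hu
      rw [h2, map_pow, hπ, pow_mul, h3, map_pow, map_pow, ← pow_mul, ← pow_mul, mul_comm]
  have h2 : ∀ u : ZMod l, π ((χ ^ i) u) = ι (u ^ (m * j)) := by
    intro u
    rw [MulChar.pow_apply' _ hi.ne', map_pow, h1, ← map_pow, ← pow_mul]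
    by_cases hu : u = 0
    · subst hu
      rw [zero_pow (by positivity), zero_pow (by positivity)]
    · have h3 : (u ^ m) ^ p = 1 := by rw [← pow_mul]; exact pow_mp hm hu
      rw [mul_assoc, pow_mul, pow_mul u m j, pow_eq_pow_mod _ h3, pow_eq_pow_mod j h3, hij]
  have h3 : π (jacobiSum χ (χ ^ i)) = ι (∑ u : ZMod l, u ^ (m * t) * (1 - u) ^ (m * j)) := by
    simp only [jacobiSum, map_sum, map_mul, h1, h2]
  rw [h3, sum_pow_mul_eq_zero, map_zero]
  rw [hm, ← mul_add]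
  exact Nat.mul_lt_mul_of_pos_left hlt hm0

/-- Stickelberger: `Phi` lies in the power `p - t` of the ideal `I`. -/
lemma Phi_mem [Fact p.Prime] {μ : R} (hμ : μ ^ p = 1) {r : ZMod l} (hm : l - 1 = m * p)
    {χ : MulChar (ZMod l) R} (h : Match μ r m χ) {x y : ℤ} (hy : (y : ZMod l) ≠ 0)
    (hxy : (x : ZMod l) + r * y = 0) {a : ZMod p} (ha : a ≠ 0) :
    Phi p χ ∈ (Ideal.span {(l : R), (x : R) + μ ^ a.val * y}) ^ (-a⁻¹).val := by
  classical
  have hp : p.Prime := Fact.out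
  set I : Ideal R := Ideal.span {(l : R), (x : R) + μ ^ a.val * y} with hI
  have hlI : (l : R) ∈ I := Ideal.subset_span (by simp)
  have haI : (x : R) + μ ^ a.val * y ∈ I := Ideal.subset_span (by simp)
  let π := Ideal.Quotient.mk I
  have hl0 : ((l : ℕ) : R ⧸ I) = 0 := by
    rw [← map_natCast π]; exact Ideal.Quotient.eq_zero_iff_mem.2 hlI
  obtain ⟨ι⟩ : Nonempty (ZMod l →+* R ⧸ I) := by
    obtain ⟨n, hn⟩ := CharP.exists (R ⧸ I)
    exact ⟨ZMod.castHom ((CharP.cast_eq_zero_iff _ n l).1 hl0) _⟩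
  set t := (a⁻¹).val with ht
  have ht0 : 0 < t := ZMod.val_pos.2 (inv_ne_zero ha)
  have htp : t < p := ZMod.val_lt _
  have hneg : (-a⁻¹).val = p - t := by
    rw [ZMod.neg_val, if_neg (inv_ne_zero ha)]
  have hπa : π μ ^ a.val = ι r := by
    have e1 : (x : R ⧸ I) + π μ ^ a.val * y = 0 := by
      have := Ideal.Quotient.eq_zero_iff_mem.2 haI
      simpa using this
    have e2 : (x : R ⧸ I) + ι r * y = 0 := by
      have := congrArg ι hxy
      simpa using this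
    have e3 : (y : R ⧸ I) * ι (y : ZMod l)⁻¹ = 1 := by
      rw [← map_intCast ι, ← map_mul, mul_inv_cancel₀ hy, map_one]
    linear_combination (ι (y : ZMod l)⁻¹) * (e1 - e2) - (π μ ^ a.val - ι r) * e3
  have hat : a.val * t ≡ 1 [MOD p] := by
    rw [← ZMod.natCast_eq_natCast_iff]
    simp [ht, ha]
  have hπ : π μ = ι r ^ t := by
    have hμ' : π μ ^ p = 1 := by rw [← map_pow, hμ, map_one]
    rw [← hπa, ← pow_mul, pow_eq_pow_mod _ hμ', hat, Nat.mod_eq_of_lt hp.one_lt, pow_one]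
  let f : ℕ → ℕ := fun j => ((j : ZMod p) * a).val
  have hf : ∀ j ∈ Ico 1 (p - t), f j ∈ Ico 1 (p - 1) ∧ jacobiSum χ (χ ^ f j) ∈ I := by
    intro j hj
    obtain ⟨hj1, hj2⟩ := mem_Ico.1 hj
    have hj0 : (j : ZMod p) ≠ 0 := by
      rw [Ne, ZMod.natCast_eq_zero_iff]
      exact fun hd => absurd (Nat.le_of_dvd hj1 hd) (by omega)
    have hf0 : 0 < f j := ZMod.val_pos.2 (mul_ne_zero hj0 ha)
    have hfp : f j < p := ZMod.val_lt _
    have hmod : t * f j ≡ j [MOD p] := by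
      rw [← ZMod.natCast_eq_natCast_iff]
      simp only [ht, f, Nat.cast_mul, ZMod.natCast_val, ZMod.cast_id', id_eq]
      field_simp
    refine ⟨mem_Ico.2 ⟨hf0, ?_⟩, ?_⟩
    · by_contra hc
      have e1 : f j + 1 = p := by omega
      have e2 : t * (f j + 1) ≡ j + t [MOD p] := by
        rw [mul_add, mul_one]; exact hmod.add_right t
      rw [e1] at e2
      have e3 : p ∣ j + t := (Nat.modEq_zero_iff_dvd.1
        (e2.symm.trans (Nat.modEq_zero_iff_dvd.2 (Dvd.intro_left _ rfl))))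
      have := Nat.le_of_dvd (by omega) e3
      omega
    · exact Ideal.Quotient.eq_zero_iff_mem.1
        (map_jacobi_eq_zero hm h π ι hπ ht0 hf0 hj1 hmod (by omega))
  have hinj : Set.InjOn f (Ico 1 (p - t) : Finset ℕ) := by
    intro j hj k hk hjk
    have h1 := mem_Ico.1 (mem_coe.1 hj)
    have h2 := mem_Ico.1 (mem_coe.1 hk)
    have h3 : (j : ZMod p) = k := mul_right_cancel₀ ha (ZMod.val_injective p hjk)
    rw [ZMod.natCast_eq_natCast_iff'] at h3
    rwa [Nat.mod_eq_of_lt (by omega), Nat.mod_eq_of_lt (by omega)] at h3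
  have hsub : (Ico 1 (p - t)).image f ⊆ Ico 1 (p - 1) := by
    intro i hi
    obtain ⟨j, hj, rfl⟩ := mem_image.1 hi
    exact (hf j hj).1
  obtain ⟨c, hc⟩ := prod_dvd_prod_of_subset _ _ (fun i => jacobiSum χ (χ ^ i)) hsub
  have hmem : ∏ i ∈ (Ico 1 (p - t)).image f, jacobiSum χ (χ ^ i) ∈ I ^ (p - t - 1) := by
    have := Ideal.prod_mem_prod (s := (Ico 1 (p - t)).image f) (I := fun _ => I)
      (x := fun i => jacobiSum χ (χ ^ i)) (by
        intro i hi
        obtain ⟨j, hj, rfl⟩ := mem_image.1 hi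
        exact (hf j hj).2)
    rwa [prod_const, card_image_of_injOn hinj, Nat.card_Ico] at this
  have := Ideal.mul_mem_mul hmem hlI
  rw [← pow_succ, show p - t - 1 + 1 = p - t by omega] at this
  rw [hneg, Phi, hc]
  convert Ideal.mul_mem_left _ (χ (-1) * c) this using 1
  ring

end Pool.Agent.Lib.MP_143a03_nt
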