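import Pool.Agent.Lib.MP_143a03_nt.Recip

/-! Some power of a small prime is not a sum of three `p`-th powers of integers. -/

namespace Pool.Agent.Lib.MP_143a03_nt

open Finset

variable {p q e : ℕ} [Fact p.Prime] [Fact q.Prime]

lemma exp_congr (hqp : q < p) (he : q ^ (p - 1) = e * p + 1) (hpe : ¬ p ∣ e) {W : ℤ} {j k : ℕ}
    (h : (p : ℤ) ^ 2 ∣ W ^ p * (q : ℤ) ^ j - (q : ℤ) ^ k) : (j : ZMod p) = k := by
  have hp : p.Prime := Fact.out
  have hq : q.Prime := Fact.out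
  have hpi := Nat.prime_iff_prime_int.1 hp
  have hW : ¬ (p : ℤ) ∣ W := by
    intro hW
    have h1 : (p : ℤ) ∣ (q : ℤ) ^ k :=
      (dvd_sub_right ((dvd_pow hW hp.ne_zero).mul_right _)).1 ((dvd_pow_self _ two_ne_zero).trans h)
    have := Nat.le_of_dvd hq.pos (Int.natCast_dvd_natCast.1 (hpi.dvd_of_dvd_pow h1))
    omega
  have h1 : (p : ℤ) ∣ W ^ (p - 1) - 1 :=
    (Int.ModEq.pow_card_sub_one_eq_one hp (hpi.coprime_iff_not_dvd.2 hW).symm).symm.dvd
  have h2 := dvd_sub_pow_of_dvd_sub h1 1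
  rw [pow_one, one_pow] at h2
  have h3 : ∀ n : ℕ, (p : ℤ) ^ 2 ∣ ((q : ℤ) ^ n) ^ (p - 1) - (1 + n * e * p) := by
    intro n
    have hq1 : (q : ℤ) ^ (p - 1) = e * p + 1 := by exact_mod_cast he
    rw [← pow_mul, mul_comm, pow_mul, hq1]
    induction n with
    | zero => simp
    | succ n ih =>
      obtain ⟨c, hc⟩ := ih
      refine ⟨c * (e * p + 1) + n * e ^ 2, ?_⟩
      rw [pow_succ]
      push_cast
      linear_combination ((e : ℤ) * p + 1) * hc
  have h4 := h.trans (sub_dvd_pow_sub_pow _ _ (p - 1))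
  have h5 : (p : ℤ) ^ 2 ∣ ((j : ℤ) - k) * e * p := by
    have := ((h4.sub (h2.mul_right (((q : ℤ) ^ j) ^ (p - 1)))).sub (h3 j)).add (h3 k)
    refine this.trans (dvd_of_eq ?_)
    rw [mul_pow, ← pow_mul W p, mul_comm p, pow_mul W]
    ring
  rw [sq, mul_dvd_mul_iff_right hpi.ne_zero] at h5
  rcases hpi.dvd_or_dvd h5 with h6 | h6
  · have := (ZMod.intCast_zmod_eq_zero_iff_dvd _ p).2 h6
    push_cast at this
    exact sub_eq_zero.1 this
  · exact absurd (Int.natCast_dvd_natCast.1 h6) hpe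

lemma not_dvd_add (hp2 : 2 < p) (hqp : q < p) (he : q ^ (p - 1) = e * p + 1) (hpe : ¬ p ∣ e)
    {x y z : ℤ} {j : ℕ} (hj : ¬ p ∣ j) (h : x ^ p + y ^ p + z ^ p = (q : ℤ) ^ j) :
    ¬ (p : ℤ) ∣ x + y := by
  have hp : p.Prime := Fact.out
  have hodd : Odd p := hp.odd_of_ne_two (by omega)
  intro h1
  have h2 := dvd_sub_pow_of_dvd_sub (a := x) (b := -y) (by simpa using h1) 1
  rw [pow_one, hodd.neg_pow] at h2
  have h3 := exp_congr hqp he hpe (W := z) (j := 0) (k := j) (by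
    rw [← dvd_neg]
    convert h2 using 1
    linear_combination -h)
  rw [Nat.cast_zero, eq_comm, ZMod.natCast_eq_zero_iff] at h3
  exact hj h3

omit [Fact q.Prime] in
lemma smul_triv {F : Type*} [Field F] (hp2 : 2 < p) (he : q ^ (p - 1) = e * p + 1) {D : F}
    (hD0 : D ≠ 0) (hD : D ^ q = D) : (D ^ EE p) ^ e = 1 := by
  have h1 : ∀ n : ℕ, D ^ q ^ n = D := by
    intro n
    induction n with
    | zero => simp
    | succ n ih => rw [pow_succ, pow_mul, ih, hD]
  have h2 := h1 (p - 1)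
  rw [he, pow_succ] at h2
  have h3 : D ^ (e * p) = 1 := mul_right_cancel₀ hD0 (by rw [h2, one_mul])
  obtain ⟨c, hc⟩ := dvd_EE hp2
  rw [hc, ← pow_mul, show p * c * e = e * p * c by ring, pow_mul, h3, one_pow]

lemma recip' {F : Type*} [Field F] [IsAlgClosed F] [CharP F q] (hp2 : 2 < p) (hqp : q < p)
    (he : q ^ (p - 1) = e * p + 1) (hpe : ¬ p ∣ e) {w : F} (hw : IsPrimitiveRoot w p)
    {x y z : ℤ} {j : ℕ} (hj : ¬ p ∣ j) (h : x ^ p + y ^ p + z ^ p = (q : ℤ) ^ j)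
    (hq : ¬ ((q : ℤ) ∣ x ∧ (q : ℤ) ∣ y)) {c : ℕ} (hc : (c : ZMod p) * (x + y) = y) :
    AA p w x y ^ e = w ^ (c * e) := by
  have hp : p.Prime := Fact.out
  have hodd : Odd p := hp.odd_of_ne_two (by omega)
  have hxy := not_dvd_add hp2 hqp he hpe hj h
  have hg : 0 < Int.gcd x y := by
    refine Int.gcd_pos_iff.2 ?_
    by_contra hc
    push Not at hc
    exact hxy (by simp [hc.1, hc.2])
  obtain ⟨d, x0, y0, -, hcop, rfl, rfl⟩ := Int.exists_gcd_one' hg
  have hxy0 : ¬ (p : ℤ) ∣ x0 + y0 := fun h1 => hxy (by rw [← add_mul]; exact h1.mul_right _)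
  have hd : (d : ZMod p) ≠ 0 := by
    rw [Ne, ZMod.natCast_eq_zero_iff]
    intro h1
    exact hxy (by rw [← add_mul]; exact (Int.natCast_dvd_natCast.2 h1).mul_left _)
  have hdF : (d : F) ≠ 0 := by
    rw [Ne, CharP.cast_eq_zero_iff F q]
    intro h1
    have := Int.natCast_dvd_natCast.2 h1
    exact hq ⟨this.mul_left _, this.mul_left _⟩
  have h1 := recip hp2 hqp he hw (Int.isCoprime_iff_gcd_eq_one.2 hcop) hxy0 (z := z) (j := j)
    (hp.coprime_iff_not_dvd.2 hj).symm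
    ⟨-((x0 + y0) * d ^ p), by linear_combination h + (d : ℤ) ^ p * cof_mul hodd x0 y0⟩ (c := c)
    (by
      push_cast at hc
      exact mul_right_cancel₀ hd (by linear_combination hc))
  push_cast
  rw [mul_comm (x0 : F), mul_comm (y0 : F), AA_smul, mul_pow, h1,
    smul_triv hp2 he hdF (map_natCast (frobenius F q) d), one_mul]

lemma pair_eq (hp2 : 2 < p) (hqp : q < p) (he : q ^ (p - 1) = e * p + 1) (hpe : ¬ p ∣ e)
    {x y z x' y' z' : ℤ} {j j' : ℕ} (hj : ¬ p ∣ j) (h : x ^ p + y ^ p + z ^ p = (q : ℤ) ^ j)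
    (hq : ¬ ((q : ℤ) ∣ x ∧ (q : ℤ) ∣ y)) (hj' : ¬ p ∣ j')
    (h' : x' ^ p + y' ^ p + z' ^ p = (q : ℤ) ^ j') (hq' : ¬ ((q : ℤ) ∣ x' ∧ (q : ℤ) ∣ y'))
    {d : ZMod q} (hd : d ≠ 0) (hx : (x' : ZMod q) = d * x) (hy : (y' : ZMod q) = d * y) :
    (x : ZMod p) * y' = x' * y := by
  have hp : p.Prime := Fact.out
  let F := AlgebraicClosure (ZMod q)
  have : NeZero (p : F) := ⟨by
    rw [Ne, CharP.cast_eq_zero_iff F q]
    intro h1
    have := (Nat.prime_dvd_prime_iff_eq Fact.out hp).1 h1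
    omega⟩
  have : NeZero p := ⟨hp.ne_zero⟩
  obtain ⟨w, hw⟩ := HasEnoughRootsOfUnity.exists_primitiveRoot F p
  have hs : (x : ZMod p) + y ≠ 0 := by
    have := (ZMod.intCast_zmod_eq_zero_iff_dvd _ p).not.2 (not_dvd_add hp2 hqp he hpe hj h)
    simpa using this
  have hs' : (x' : ZMod p) + y' ≠ 0 := by
    have := (ZMod.intCast_zmod_eq_zero_iff_dvd _ p).not.2 (not_dvd_add hp2 hqp he hpe hj' h')
    simpa using this
  set c := ((y : ZMod p) / (x + y)).val
  set c' := ((y' : ZMod p) / (x' + y')).val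
  have hc : (c : ZMod p) * (x + y) = y := by
    simp only [c, ZMod.natCast_val, ZMod.cast_id', id_eq]; field_simp
  have hc' : (c' : ZMod p) * (x' + y') = y' := by
    simp only [c', ZMod.natCast_val, ZMod.cast_id', id_eq]; field_simp
  have h1 := recip' hp2 hqp he hpe hw hj h hq hc
  have h2 := recip' hp2 hqp he hpe hw hj' h' hq' hc'
  have hx' : (x' : F) = algebraMap (ZMod q) F d * x := by
    simpa using congrArg (algebraMap (ZMod q) F) hx
  have hy' : (y' : F) = algebraMap (ZMod q) F d * y := by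
    simpa using congrArg (algebraMap (ZMod q) F) hy
  rw [hx', hy', AA_smul, mul_pow, h1, smul_triv hp2 he ((map_ne_zero _).2 hd)
    (by rw [← map_pow, ZMod.pow_card]), one_mul] at h2
  have h3 : c * e ≡ c' * e [MOD p] := by
    rw [pow_eq_pow_mod _ hw.pow_eq_one, pow_eq_pow_mod (c' * e) hw.pow_eq_one] at h2
    exact hw.pow_inj (Nat.mod_lt _ hp.pos) (Nat.mod_lt _ hp.pos) h2
  rw [← ZMod.natCast_eq_natCast_iff] at h3
  push_cast at h3
  have h4 : (c : ZMod p) = c' := mul_right_cancel₀ ((ZMod.natCast_eq_zero_iff _ _).not.2 hpe) h3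
  rw [← h4] at hc'
  linear_combination ((x' : ZMod p) + y') * hc - ((x : ZMod p) + y) * hc'

omit [Fact p.Prime] in
lemma not_two (hp0 : p ≠ 0) {x y z : ℤ} {j : ℕ} (hj0 : 0 < j) (hj : j < p)
    (h : x ^ p + y ^ p + z ^ p = (q : ℤ) ^ j) : ¬ ((q : ℤ) ∣ x ∧ (q : ℤ) ∣ y) := by
  rintro ⟨hx, hy⟩
  have hq : q.Prime := Fact.out
  have hqi := Nat.prime_iff_prime_int.1 hq
  have hz : (q : ℤ) ∣ z := by
    refine hqi.dvd_of_dvd_pow (n := p) ?_
    have : z ^ p = (q : ℤ) ^ j - x ^ p - y ^ p := by linear_combination h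
    rw [this]
    exact ((dvd_pow_self _ hj0.ne').sub (dvd_pow hx hp0)).sub (dvd_pow hy hp0)
  have h1 : (q : ℤ) ^ p ∣ (q : ℤ) ^ j :=
    h ▸ ((pow_dvd_pow_of_dvd hx p).add (pow_dvd_pow_of_dvd hy p)).add (pow_dvd_pow_of_dvd hz p)
  have h2 : q ^ p ∣ q ^ j := by exact_mod_cast h1
  have := (Nat.pow_dvd_pow_iff_le_right hq.one_lt).1 h2
  omega

lemma class_eq (hp2 : 2 < p) (hqp : q < p) (he : q ^ (p - 1) = e * p + 1) (hpe : ¬ p ∣ e)
    {x y z x' y' z' : ℤ} {j j' : ℕ} (hj0 : 0 < j) (hj : j < p)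
    (h : x ^ p + y ^ p + z ^ p = (q : ℤ) ^ j) (hj0' : 0 < j') (hj' : j' < p)
    (h' : x' ^ p + y' ^ p + z' ^ p = (q : ℤ) ^ j')
    {d : ZMod q} (hd : d ≠ 0) (hx : (x' : ZMod q) = d * x) (hy : (y' : ZMod q) = d * y) :
    j = j' := by
  have hp : p.Prime := Fact.out
  have hq : q.Prime := Fact.out
  have hodd : Odd p := hp.odd_of_ne_two (by omega)
  have hn : ¬ p ∣ j := fun h1 => absurd (Nat.le_of_dvd hj0 h1) (by omega)
  have hn' : ¬ p ∣ j' := fun h1 => absurd (Nat.le_of_dvd hj0' h1) (by omega)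
  have hz : (z' : ZMod q) = d * z := by
    have a1 := congrArg (Int.cast : ℤ → ZMod q) h
    have a2 := congrArg (Int.cast : ℤ → ZMod q) h'
    push_cast at a1 a2
    rw [ZMod.natCast_self, zero_pow hj0.ne'] at a1
    rw [ZMod.natCast_self, zero_pow hj0'.ne', hx, hy] at a2
    have a3 : (z' : ZMod q) ^ p = (d * z) ^ p := by
      rw [mul_pow] at a2 ⊢
      rw [mul_pow] at a2
      linear_combination a2 - d ^ p * a1
    by_cases h0 : d * z = 0
    · rw [h0, zero_pow hp.ne_zero] at a3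
      rw [h0, eq_zero_of_pow_eq_zero a3]
    · have a4 : ((z' : ZMod q) / (d * z)) ^ p = 1 := by
        rw [div_pow, a3, div_self (pow_ne_zero _ h0)]
      have a5 : (z' : ZMod q) / (d * z) ≠ 0 := by
        intro h1
        rw [h1, zero_pow hp.ne_zero] at a4
        exact zero_ne_one a4
      have a6 := pow_gcd_eq_one.2 ⟨a4, ZMod.pow_card_sub_one_eq_one a5⟩
      have a7 : p.Coprime (q - 1) := hp.coprime_iff_not_dvd.2 fun h1 =>
        absurd (Nat.le_of_dvd (by have := hq.two_le; omega) h1) (by omega)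
      rw [a7, pow_one, div_eq_one_iff_eq h0] at a6
      exact a6
  have g : x ^ p + z ^ p + y ^ p = (q : ℤ) ^ j := by linear_combination h
  have g' : x' ^ p + z' ^ p + y' ^ p = (q : ℤ) ^ j' := by linear_combination h'
  have k : y ^ p + z ^ p + x ^ p = (q : ℤ) ^ j := by linear_combination h
  have k' : y' ^ p + z' ^ p + x' ^ p = (q : ℤ) ^ j' := by linear_combination h'
  have e1 := pair_eq hp2 hqp he hpe hn h (not_two hp.ne_zero hj0 hj h) hn' h'
    (not_two hp.ne_zero hj0' hj' h') hd hx hy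
  have e2 := pair_eq hp2 hqp he hpe hn g (not_two hp.ne_zero hj0 hj g) hn' g'
    (not_two hp.ne_zero hj0' hj' g') hd hx hz
  have e3 := pair_eq hp2 hqp he hpe hn k (not_two hp.ne_zero hj0 hj k) hn' k'
    (not_two hp.ne_zero hj0' hj' k') hd hy hz
  have hs : (x : ZMod p) + y ≠ 0 := by
    have := (ZMod.intCast_zmod_eq_zero_iff_dvd _ p).not.2 (not_dvd_add hp2 hqp he hpe hn h)
    simpa using this
  set W : ℤ := ((((x' : ZMod p) + y') / (x + y)).val : ℤ)
  have hW : (W : ZMod p) * (x + y) = x' + y' := by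
    rw [Int.cast_natCast, ZMod.natCast_zmod_val]; field_simp
  have key : ∀ a b : ℤ, ((x : ZMod p) + y) * b = (x' + y') * a →
      (p : ℤ) ^ 2 ∣ W ^ p * a ^ p - b ^ p := by
    intro a b hab
    have a1 : (p : ℤ) ∣ W * a - b := by
      rw [← ZMod.intCast_zmod_eq_zero_iff_dvd]
      push_cast
      exact mul_left_cancel₀ hs (by linear_combination (a : ZMod p) * hW - hab)
    have := dvd_sub_pow_of_dvd_sub a1 1
    rwa [pow_one, mul_pow] at this
  have f1 := key x x' (by linear_combination -e1)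
  have f2 := key y y' (by linear_combination e1)
  have f3 := key z z' (by linear_combination e2 + e3)
  have f4 := exp_congr hqp he hpe (W := W) (j := j) (k := j') (by
    refine ((f1.add f2).add f3).trans (dvd_of_eq ?_)
    rw [← h, ← h']
    ring)
  rw [ZMod.natCast_eq_natCast_iff', Nat.mod_eq_of_lt hj, Nat.mod_eq_of_lt hj'] at f4
  exact f4

lemma exists_exp (hqp : q + 2 < p) (he : q ^ (p - 1) = e * p + 1) (hpe : ¬ p ∣ e) :
    ∃ j : ℕ, ∀ x y z : ℤ, x ^ p + y ^ p + z ^ p ≠ (q : ℤ) ^ j := by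
  classical
  have hp : p.Prime := Fact.out
  by_contra hc
  push Not at hc
  choose x y z h using hc
  let f : ℕ → Option (ZMod q) := fun j =>
    if (x j : ZMod q) = 0 then none else some ((y j : ZMod q) / x j)
  have hinj : Set.InjOn f (Ico 1 p : Finset ℕ) := by
    intro j hj k hk hjk
    obtain ⟨j1, j2⟩ := mem_Ico.1 (mem_coe.1 hj)
    obtain ⟨k1, k2⟩ := mem_Ico.1 (mem_coe.1 hk)
    by_cases a1 : (x j : ZMod q) = 0 <;> by_cases a2 : (x k : ZMod q) = 0
    · have b1 : (y j : ZMod q) ≠ 0 := fun b => not_two hp.ne_zero j1 j2 (h j)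
        ⟨(ZMod.intCast_zmod_eq_zero_iff_dvd _ _).1 a1, (ZMod.intCast_zmod_eq_zero_iff_dvd _ _).1 b⟩
      have b2 : (y k : ZMod q) ≠ 0 := fun b => not_two hp.ne_zero k1 k2 (h k)
        ⟨(ZMod.intCast_zmod_eq_zero_iff_dvd _ _).1 a2, (ZMod.intCast_zmod_eq_zero_iff_dvd _ _).1 b⟩
      exact class_eq (by omega) (by omega) he hpe j1 j2 (h j) k1 k2 (h k) (div_ne_zero b2 b1)
        (by rw [a1, a2, mul_zero]) (by field_simp)
    · simp [f, a1, a2] at hjk
    · simp [f, a1, a2] at hjk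
    · simp only [f, a1, a2, if_false, Option.some.injEq] at hjk
      exact class_eq (by omega) (by omega) he hpe j1 j2 (h j) k1 k2 (h k) (div_ne_zero a2 a1)
        (by field_simp) (by field_simp at hjk ⊢; linear_combination -hjk)
  have := card_le_card_of_injOn f (t := univ) (fun _ _ => mem_coe.2 (mem_univ _)) hinj
  rw [Nat.card_Ico, card_univ, Fintype.card_option, ZMod.card] at this
  omega

lemma exists_base (hp5 : 5 ≤ p) :
    ∃ q e : ℕ, q.Prime ∧ q + 2 < p ∧ q ^ (p - 1) = e * p + 1 ∧ ¬ p ∣ e := by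
  have hp : p.Prime := Fact.out
  have hodd : Odd p := hp.odd_of_ne_two (by omega)
  by_contra hc
  push Not at hc
  have h1 : ∀ n : ℕ, n ≠ 0 → n ∣ p - 1 → n ^ (p - 1) ≡ 1 [MOD p ^ 2] := by
    intro n
    induction n using induction_on_primes with
    | zero => exact fun h => absurd rfl h
    | one => intro _ _; rw [one_pow]
    | prime_mul r n hr ih =>
      intro h0 hd
      have a1 := ih (right_ne_zero_of_mul h0) (dvd_of_mul_left_dvd hd)
      have a2 : r ∣ p - 1 := dvd_of_mul_right_dvd hd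
      have a3 : r + 2 < p := by
        obtain ⟨m, hm⟩ := hodd
        have : r ∣ 2 * m := by rwa [show 2 * m = p - 1 by omega]
        rcases (hr.dvd_mul).1 this with a | a
        · have := Nat.le_of_dvd two_pos a; omega
        · have := Nat.le_of_dvd (by omega) a; omega
      have a4 : r ^ (p - 1) ≡ 1 [MOD p] := by
        have := Nat.ModEq.pow_totient (x := r) (n := p)
          ((Nat.coprime_primes hr hp).2 (by omega))
        rwa [Nat.totient_prime hp] at this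
      obtain ⟨e, he⟩ := (Nat.modEq_iff_dvd' (Nat.one_le_pow _ _ hr.pos)).1 a4.symm
      have he' : r ^ (p - 1) = e * p + 1 := by
        have := Nat.one_le_pow (p - 1) _ hr.pos
        rw [mul_comm]; omega
      obtain ⟨c, rfl⟩ := hc r e hr a3 he'
      have a5 : r ^ (p - 1) ≡ 1 [MOD p ^ 2] := by
        rw [he', show p * c * p + 1 = 1 + c * p ^ 2 by ring]
        exact Nat.add_mul_modulus_modEq_iff.2 rfl
      rw [mul_pow]
      simpa using a5.mul a1
  have h2 := h1 (p - 1) (by omega) dvd_rfl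
  have h3 : (p : ℤ) ^ 2 ∣ 1 - ((p : ℤ) - 1) ^ (p - 1) := by
    have := h2.dvd
    push_cast [Nat.cast_sub hp.one_le] at this
    exact this
  have h4 := sq_dvd_add_pow_sub_sub (p : ℤ) (-1) (p - 1)
  have he : Even (p - 1) := by obtain ⟨m, hm⟩ := hodd; exact ⟨m, by omega⟩
  have ho : Odd (p - 1 - 1) := by obtain ⟨m, hm⟩ := hodd; exact ⟨m - 1, by omega⟩
  rw [he.neg_one_pow, ho.neg_one_pow, Nat.cast_sub hp.one_le] at h4
  have h5 : (p : ℤ) ^ 2 ∣ p := by
    have := (dvd_refl ((p : ℤ) ^ 2)).sub (h3.add h4)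
    refine this.trans (dvd_of_eq ?_)
    rw [show (-1 : ℤ) + p = p - 1 by ring]
    push_cast
    ring
  have := Int.le_of_dvd (by exact_mod_cast hp.pos) h5
  have h6 : (5 : ℤ) ≤ p := by exact_mod_cast hp5
  nlinarith

/-- For a prime `p ≥ 5` some positive integer is not a sum of three `p`-th powers of integers. -/
theorem exists_not_sum (hp5 : 5 ≤ p) :
    ∃ n : ℕ, 0 < n ∧ ∀ x y z : ℤ, x ^ p + y ^ p + z ^ p ≠ n := by
  obtain ⟨q, e, hq, h1, h2, h3⟩ := exists_base hp5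
  have := Fact.mk hq
  obtain ⟨j, hj⟩ := exists_exp h1 h2 h3
  exact ⟨q ^ j, pow_pos hq.pos _, by simpa using hj⟩

end Pool.Agent.Lib.MP_143a03_nt
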