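import Pool.Agent.Lib.MP_143a03_nt.Alg

/-! The case of Eisenstein reciprocity that is needed for sums of three `p`-th powers. -/

namespace Pool.Agent.Lib.MP_143a03_nt

open Finset NumberField

variable {p q e : ℕ} [Fact p.Prime] [Fact q.Prime]

lemma span_mul_le {R : Type*} [CommRing R] (a b c : R) :
    Ideal.span {a, c} * Ideal.span {b, c} ≤ Ideal.span {a * b, c} := by
  rw [Ideal.span_pair_mul_span_pair, Ideal.span_le]
  have hc : c ∈ Ideal.span {a * b, c} := Ideal.subset_span (by simp)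
  intro z hz
  simp only [Set.mem_insert_iff, Set.mem_singleton_iff] at hz
  rcases hz with rfl | rfl | rfl | rfl
  · exact Ideal.subset_span (by simp)
  · exact Ideal.mul_mem_left _ _ hc
  · exact Ideal.mul_mem_right _ _ hc
  · exact Ideal.mul_mem_left _ _ hc

/-- The product of the `Phi` over the prime factors of `n`. -/
lemma exists_Phi {R S F : Type*} [CommRing R] [IsDomain R] [CommRing S] [Field F] [IsAlgClosed F]
    [CharP F q] (hp2 : 2 < p) (hqp : q < p) (he : q ^ (p - 1) = e * p + 1)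
    {μ : R} (hμ : IsPrimitiveRoot μ p) (π₁ : R →+* S) (hπ₁ : (π₁ μ - 1) ^ 2 = 0)
    (π₂ : R →+* F) (hπ₂ : IsPrimitiveRoot (π₂ μ) p)
    {x y z : ℤ} (hxy : IsCoprime x y) (hpxy : ¬ (p : ℤ) ∣ x + y) {j : ℕ} (hj : j.Coprime p)
    (hz : cof p x y ∣ z ^ p - (q : ℤ) ^ j) (n : ℕ) (hn0 : n ≠ 0) (hn : (n : ℤ) ∣ cof p x y) :
    ∃ Φ : R, (∀ a : ZMod p, a ≠ 0 →
        Φ ∈ (Ideal.span {(n : R), (x : R) + μ ^ a.val * y}) ^ (-a⁻¹).val) ∧
      (∀ φ : R →+* ℂ, IsPrimitiveRoot (φ μ) p → ‖φ Φ‖ ^ 2 = (n : ℝ) ^ p) ∧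
      (π₁ Φ = n ∨ π₁ Φ = -n) ∧ π₂ Φ ^ e = 1 := by
  have hp : p.Prime := Fact.out
  have hq : q.Prime := Fact.out
  have hodd : Odd p := hp.odd_of_ne_two (by omega)
  induction n using induction_on_primes with
  | zero => exact absurd rfl hn0
  | one =>
    refine ⟨1, fun a _ => ?_, by simp, by simp, by simp⟩
    rw [(Ideal.eq_top_iff_one _).2 (Ideal.subset_span (by simp)), Ideal.top_pow]
    trivial
  | prime_mul l n hl ih =>
    have := Fact.mk hl
    have hn' : n ≠ 0 := right_ne_zero_of_mul hn0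
    push_cast at hn
    obtain ⟨Φ, h1, h2, h3, h4⟩ := ih hn' (dvd_of_mul_left_dvd hn)
    have hlc : (l : ℤ) ∣ cof p x y := dvd_of_mul_right_dvd hn
    obtain ⟨hy, r, hr, hrxy⟩ := exists_root hp hodd hxy hpxy hlc
    have hr0 : r ≠ 0 := hr.ne_zero hp.ne_zero
    obtain ⟨m, hm⟩ : p ∣ l - 1 := hr.dvd_of_pow_eq_one _ (ZMod.pow_card_sub_one_eq_one hr0)
    rw [mul_comm] at hm
    have hlp : p ≤ l - 1 := Nat.le_of_dvd (by have := hl.two_le; omega) (hm ▸ Dvd.intro_left _ rfl)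
    have hlq : l ≠ q := by omega
    obtain ⟨χ, hχ⟩ := exists_match hp.pos hμ hr hm
    have hq0 : (q : ZMod l) ≠ 0 := by
      rw [Ne, ZMod.natCast_eq_zero_iff]
      exact fun h => hlq ((Nat.prime_dvd_prime_iff_eq hl hq).1 h)
    have hzq : (z : ZMod l) ^ p = (q : ZMod l) ^ j := by
      have := (ZMod.intCast_zmod_eq_zero_iff_dvd _ l).2 (hlc.trans hz)
      push_cast at this
      exact sub_eq_zero.1 this
    have hz0 : (z : ZMod l) ≠ 0 := by
      intro h
      rw [h, zero_pow hp.ne_zero] at hzq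
      exact pow_ne_zero _ hq0 hzq.symm
    have hqm : (q : ZMod l) ^ m = 1 := by
      have a1 : ((q : ZMod l) ^ m) ^ j = 1 := by
        rw [← pow_mul, mul_comm, pow_mul, ← hzq, ← pow_mul, mul_comm]; exact pow_mp hm hz0
      have a2 : ((q : ZMod l) ^ m) ^ p = 1 := by rw [← pow_mul]; exact pow_mp hm hq0
      have := pow_gcd_eq_one.2 ⟨a1, a2⟩
      rwa [hj, pow_one] at this
    refine ⟨Phi p χ * Φ, fun a ha => ?_, fun φ hφ => ?_, ?_, ?_⟩
    · have := Ideal.mul_mem_mul (Phi_mem hμ.pow_eq_one hm hχ hy hrxy ha) (h1 a ha)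
      rw [← mul_pow] at this
      push_cast
      exact Ideal.pow_right_mono (span_mul_le _ _ _) _ this
    · rw [map_mul, norm_mul, mul_pow, h2 φ hφ, Phi_map,
        norm_Phi hp ((hχ.map φ).orderOf_eq hp hφ hr hm)]
      push_cast
      ring
    · rw [map_mul, Phi_congr hp hp2 hμ hm hχ π₁ hπ₁]
      push_cast
      rcases h3 with h3 | h3 <;> rw [h3]
      · right; ring
      · left; ring
    · rw [map_mul, mul_pow, h4, mul_one, Phi_map]
      exact Phi_pow_char hp hlq he ((hχ.map π₂).orderOf_eq hp hπ₂ hr hm)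
        ((hχ.map π₂).eq_one hπ₂.pow_eq_one hr hq0 hqm)

omit [Fact p.Prime] in
lemma neg_one_pow_e {F : Type*} [Field F] [CharP F q] (hodd : Odd p)
    (he : q ^ (p - 1) = e * p + 1) : (-1 : F) ^ e = 1 := by
  have h1 : (-1 : F) ^ q ^ (p - 1) = -1 := neg_one_pow_char_pow F q (p - 1)
  rw [he, pow_succ, mul_comm e p, pow_mul, hodd.neg_one_pow] at h1
  linear_combination -h1

theorem recip {F : Type*} [Field F] [IsAlgClosed F] [CharP F q] (hp2 : 2 < p) (hqp : q < p)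
    (he : q ^ (p - 1) = e * p + 1) {w : F} (hw : IsPrimitiveRoot w p)
    {x y z : ℤ} (hxy : IsCoprime x y) (hpxy : ¬ (p : ℤ) ∣ x + y) {j : ℕ} (hj : j.Coprime p)
    (hz : cof p x y ∣ z ^ p - (q : ℤ) ^ j) {c : ℕ} (hc : (c : ZMod p) * (x + y) = y) :
    AA p w x y ^ e = w ^ (c * e) := by
  have hp : p.Prime := Fact.out
  have hodd : Odd p := hp.odd_of_ne_two (by omega)
  have : NeZero p := ⟨hp.ne_zero⟩
  obtain ⟨K, _, _, _, ζ, hζ⟩ : ∃ (K : Type) (_ : Field K) (_ : NumberField K)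
      (_ : IsCyclotomicExtension {p} ℚ K) (ζ : K), IsPrimitiveRoot ζ p := by
    have h0 : @IsCyclotomicExtension {p} ℚ (CyclotomicField p ℚ) _ _ DivisionRing.toRatAlgebra := by
      convert CyclotomicField.isCyclotomicExtension p ℚ
      · rfl
      · exact Subsingleton.elim _ _
    exact ⟨CyclotomicField p ℚ, inferInstance, inferInstance, h0, _,
      @IsCyclotomicExtension.zeta_spec p _ ℚ (CyclotomicField p ℚ) _ _ _ h0⟩
  set μ : 𝓞 K := hζ.toInteger with hμdef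
  have hμ : IsPrimitiveRoot μ p := hζ.toInteger_isPrimitiveRoot
  have hxy0 : x + y ≠ 0 := fun h => hpxy (h ▸ dvd_zero _)
  obtain ⟨π₂, hπ₂⟩ : ∃ π₂ : 𝓞 K →+* F, π₂ μ = w := by
    have h1 : Polynomial.aeval w (minpoly ℤ hζ.integralPowerBasis.gen) = 0 := by
      rw [hζ.integralPowerBasis_gen, ← RingOfIntegers.minpoly_coe]
      change Polynomial.aeval w (minpoly ℤ ζ) = 0
      rw [← Polynomial.cyclotomic_eq_minpoly hζ hp.pos, Polynomial.aeval_def,
        Polynomial.eval₂_eq_eval_map, Polynomial.map_cyclotomic]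
      exact hw.isRoot_cyclotomic hp.pos
    refine ⟨(hζ.integralPowerBasis.lift w h1).toRingHom, ?_⟩
    rw [hμdef, ← hζ.integralPowerBasis_gen]
    exact PowerBasis.lift_gen _ _ _
  let π₁ := Ideal.Quotient.mk (Ideal.span {(μ - 1) ^ 2})
  have hπ₁ : (π₁ μ - 1) ^ 2 = 0 := by
    rw [← map_one π₁, ← map_sub, ← map_pow]
    exact Ideal.Quotient.eq_zero_iff_mem.2 (Ideal.mem_span_singleton_self _)
  have hcofp : ¬ (p : ℤ) ∣ cof p x y := by
    intro h
    obtain ⟨-, r, hr, -⟩ := exists_root (l := p) hp hodd hxy hpxy h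
    have h1 := hr.dvd_of_pow_eq_one _ (ZMod.pow_card_sub_one_eq_one (hr.ne_zero hp.ne_zero))
    have := Nat.le_of_dvd (by omega) h1
    omega
  set n := (cof p x y).natAbs with hn
  have hn0 : n ≠ 0 := fun h => hcofp (by rw [Int.natAbs_eq_zero.1 h]; exact dvd_zero _)
  obtain ⟨Φ, h1, h2, h3, h4⟩ := exists_Phi hp2 hqp he hμ π₁ hπ₁ π₂ (hπ₂ ▸ hw) hxy hpxy hj hz n hn0
    (by rw [hn]; exact Int.natAbs_dvd.2 dvd_rfl)
  obtain ⟨ε, hε⟩ : AA p μ x y ∣ Φ := by
    refine Finset.prod_dvd_of_coprime (fun a _ b _ hab => ?_) (fun a _ => ?_)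
    · exact (coprime_factor hodd hμ hxy hpxy hab).pow
    · by_cases ha : a = 0
      · subst ha; simp
      have h5 : (x : 𝓞 K) + μ ^ a.val * y ∣ (n : 𝓞 K) := by
        have h6 : (x : 𝓞 K) + μ ^ a.val * y ∣ (cof p x y : 𝓞 K) := by
          rw [← prod_erase hodd hμ hxy0]
          exact dvd_prod_of_mem _ (mem_erase.2 ⟨ha, mem_univ _⟩)
        refine h6.trans ?_
        rw [← Int.cast_natCast]
        exact Int.cast_dvd_cast _ _ (Int.dvd_natAbs.2 dvd_rfl)
      have h7 : Ideal.span {(n : 𝓞 K), (x : 𝓞 K) + μ ^ a.val * y} ≤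
          Ideal.span {(x : 𝓞 K) + μ ^ a.val * y} := by
        rw [Ideal.span_le]
        intro t ht
        rcases ht with rfl | rfl
        · exact Ideal.mem_span_singleton.2 h5
        · exact Ideal.mem_span_singleton_self _
      have := Ideal.pow_right_mono h7 _ (h1 a ha)
      rwa [Ideal.span_singleton_pow, Ideal.mem_span_singleton] at this
  have hnorm : ∀ φ : K →+* ℂ, ‖φ (ε : K)‖ = 1 := by
    intro φ
    let f : 𝓞 K →+* ℂ := φ.comp (algebraMap (𝓞 K) K)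
    have hf : IsPrimitiveRoot (f μ) p := hζ.map_of_injective φ.injective
    have a1 := h2 f hf
    rw [hε, map_mul, norm_mul, mul_pow, AA_map, map_intCast, map_intCast,
      norm_AA hodd hf hxy0, ← hn] at a1
    have a2 : ((n : ℝ)) ^ p ≠ 0 := pow_ne_zero _ (Nat.cast_ne_zero.2 hn0)
    have a3 : ‖f ε‖ ^ 2 = 1 := mul_left_cancel₀ a2 (by rw [a1, mul_one])
    exact (pow_eq_one_iff_of_nonneg (norm_nonneg _) two_ne_zero).1 a3
  obtain ⟨k, hk0, hk⟩ := Embeddings.pow_eq_one_of_norm_eq_one K ℂ ε.isIntegral_coe hnorm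
  obtain ⟨i, -, hi⟩ := hζ.exists_pow_or_neg_mul_pow_of_isOfFinOrder hodd
    (isOfFinOrder_iff_pow_eq_one.2 ⟨k, hk0, hk⟩)
  obtain ⟨s, hs, hεi⟩ : ∃ s : ℤ, (s = 1 ∨ s = -1) ∧ ε = s * μ ^ i := by
    rcases hi with hi | hi
    · refine ⟨1, Or.inl rfl, RingOfIntegers.coe_injective ?_⟩
      rw [hi, map_mul, map_pow, map_intCast, Int.cast_one, one_mul]; rfl
    · refine ⟨-1, Or.inr rfl, RingOfIntegers.coe_injective ?_⟩
      rw [hi, map_mul, map_pow, map_intCast, Int.cast_neg, Int.cast_one, neg_one_mul]; rfl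
  have hprime : Prime (μ - 1) := hζ.zeta_sub_one_prime'
  obtain ⟨z₁, -, hz₁⟩ := hμ.self_sub_one_pow_dvd_order hp2
  have hint : ∀ a : ℤ, μ - 1 ∣ (a : 𝓞 K) → (p : ℤ) ∣ a := by
    intro a ha
    by_contra hc
    obtain ⟨u, v, huv⟩ := ((Nat.prime_iff_prime_int.1 hp).coprime_iff_not_dvd).2 hc
    have h5 : μ - 1 ∣ (p : 𝓞 K) := ⟨z₁ * (μ - 1), by rw [hz₁]; ring⟩
    have h6 : (u : 𝓞 K) * p + v * a = 1 := by exact_mod_cast congrArg (Int.cast : ℤ → 𝓞 K) huv
    have h7 := (h5.mul_left (u : 𝓞 K)).add (ha.mul_left (v : 𝓞 K))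
    rw [h6] at h7
    exact hprime.not_isUnit (isUnit_of_dvd_one h7)
  have hic : p ∣ i + c := by
    have hp0 : (p : 𝓞 K ⧸ Ideal.span {(μ - 1) ^ 2}) = 0 := by
      rw [← map_natCast π₁, hz₁, map_mul, map_pow, map_sub, map_one, hπ₁, mul_zero]
    have a1 := AA_congr (p := p) hπ₁ (by rw [hp0, zero_mul]) hc
    have hpow : ∀ n : ℕ, π₁ μ ^ n = 1 + n * (π₁ μ - 1) := by
      intro n
      induction n with
      | zero => simp
      | succ n ih =>
        rw [pow_succ (π₁ μ), ih]; push_cast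
        linear_combination (n : 𝓞 K ⧸ Ideal.span {(μ - 1) ^ 2}) * hπ₁
    obtain ⟨t, ht⟩ : ∃ t : ℤ, π₁ Φ = t := by
      rcases h3 with h3 | h3
      · exact ⟨n, by simpa using h3⟩
      · exact ⟨-n, by simpa using h3⟩
    rw [hε, hεi, map_mul, AA_map, map_intCast, map_intCast, a1, map_mul, map_intCast, map_pow,
      hpow] at ht
    set b : ℤ := s * (x + y) ^ EE p with hb
    have a2 : π₁ ((b - t : ℤ) + ((b * (i + c) : ℤ) : 𝓞 K) * (μ - 1)) = 0 := by
      simp only [map_add, map_mul, map_intCast, map_sub, map_one, hb]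
      push_cast
      linear_combination ht - ((s : 𝓞 K ⧸ Ideal.span {(μ - 1) ^ 2}) * (x + y) ^ EE p * c * i) * hπ₁
    have a3 := Ideal.mem_span_singleton.1 (Ideal.Quotient.eq_zero_iff_mem.1 a2)
    have a4 : (p : ℤ) ∣ b - t := by
      refine hint _ ?_
      exact (dvd_add_left (Dvd.intro_left _ rfl)).1 ((dvd_pow_self _ two_ne_zero).trans a3)
    have a5 : (μ - 1) ^ 2 ∣ ((b - t : ℤ) : 𝓞 K) := by
      refine Dvd.dvd.trans ⟨z₁, by rw [hz₁]; ring⟩ (?_ : (p : 𝓞 K) ∣ _)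
      rw [← Int.cast_natCast]
      exact Int.cast_dvd_cast _ _ a4
    have a6 := (dvd_add_right a5).1 a3
    rw [sq, mul_dvd_mul_iff_right hprime.ne_zero] at a6
    have a7 := hint _ a6
    have hpi := Nat.prime_iff_prime_int.1 hp
    rcases hpi.dvd_or_dvd a7 with a8 | a8
    · rcases hpi.dvd_or_dvd a8 with a9 | a9
      · exfalso
        rcases hs with rfl | rfl
        · exact hpi.not_dvd_one a9
        · exact hpi.not_dvd_one (dvd_neg.1 a9)
      · exact absurd (hpi.dvd_of_dvd_pow a9) hpxy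
    · exact_mod_cast a8
  rw [hε, hεi, map_mul, AA_map, map_intCast, map_intCast, map_mul, map_intCast, map_pow, hπ₂,
    mul_pow, mul_pow] at h4
  have hse : (s : F) ^ e = 1 := by
    rcases hs with rfl | rfl
    · simp
    · simpa using neg_one_pow_e hodd he
  have h5 : (w ^ i) ^ e * w ^ (c * e) = 1 := by
    obtain ⟨d, hd⟩ := hic
    rw [← pow_mul, ← pow_add, ← add_mul, hd, mul_assoc, pow_mul, hw.pow_eq_one, one_pow]
  rw [hse, one_mul] at h4
  linear_combination w ^ (c * e) * h4 - AA p w x y ^ e * h5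

end Pool.Agent.Lib.MP_143a03_nt
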